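import Mathlib

/-!
Simple arrangements of `n` great circles all of whose faces have at most five sides.
-/

namespace Pool.Agent.Results.MP_2b14c6_co.GreatCirclesFive

open Filter Topology

/-- Euclidean three-space -/
abbrev E := EuclideanSpace ℝ (Fin 3)

section comb

variable {ι : Type} [Fintype ι] [DecidableEq ι]

/-- the sign vector `s` is realised by a cell -/
def Cell (a : ι → E) (s : ι → ℝ) : Prop :=
  (∀ j, s j = 1 ∨ s j = -1) ∧ ∃ x : E, ∀ j, 0 < s j * inner ℝ (a j) x

/-- flip the sign at `i` -/
def flip (s : ι → ℝ) (i : ι) : ι → ℝ := Function.update s i (-s i)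

open Classical in
/-- the walls of the cell with sign vector `s` -/
noncomputable def walls (a : ι → E) (s : ι → ℝ) : Finset ι :=
  Finset.univ.filter (fun i => Cell a (flip s i))

/-- no three of the planes share a line -/
def Simple (a : ι → E) : Prop :=
  ∀ i j k, i ≠ j → j ≠ k → i ≠ k → ∀ x : E, inner ℝ (a i) x = 0 → inner ℝ (a j) x = 0 →
    inner ℝ (a k) x = 0 → x = 0

/-- `y` is on the wall `i` of the cell `s` -/
def OnEdge (a : ι → E) (s : ι → ℝ) (i : ι) (y : E) : Prop :=
  inner ℝ (a i) y = 0 ∧ ∀ j, j ≠ i → 0 < s j * inner ℝ (a j) y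

theorem flip_self (s : ι → ℝ) (i : ι) : flip s i i = - s i := by simp [flip]

theorem flip_ne (s : ι → ℝ) {i j : ι} (h : j ≠ i) : flip s i j = s j := by
  simp [flip, Function.update_of_ne h]

theorem flip_flip (s : ι → ℝ) (i : ι) : flip (flip s i) i = s := by
  funext j
  by_cases h : j = i
  · subst h; simp [flip]
  · rw [flip_ne _ h, flip_ne _ h]

theorem flip_pm {s : ι → ℝ} (hs : ∀ j, s j = 1 ∨ s j = -1) (i : ι) :
    ∀ j, flip s i j = 1 ∨ flip s i j = -1 := by
  intro j
  by_cases h : j = i
  · subst h
    rw [flip_self]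
    rcases hs j with h | h
    · right; rw [h]
    · left; rw [h]; norm_num
  · rw [flip_ne _ h]; exact hs j

theorem small (c d : ι → ℝ) (h : ∀ j, 0 < c j ∨ (c j = 0 ∧ 0 < d j)) :
    ∃ τ : ℝ, 0 < τ ∧ ∀ j, 0 < c j + τ * d j := by
  have h1 : ∀ᶠ τ : ℝ in 𝓝[>] 0, ∀ j, 0 < c j + τ * d j := by
    rw [Filter.eventually_all]
    intro j
    rcases h j with hj | ⟨hj, hd⟩
    · have hc : ContinuousAt (fun τ : ℝ => c j + τ * d j) 0 := by fun_prop
      have : ∀ᶠ τ : ℝ in 𝓝 0, 0 < c j + τ * d j := by
        apply hc.eventually_const_lt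
        simpa using hj
      exact this.filter_mono nhdsWithin_le_nhds
    · filter_upwards [self_mem_nhdsWithin] with τ hτ
      rw [hj, zero_add]
      exact mul_pos hτ hd
  obtain ⟨τ, h2, h3⟩ := (h1.and self_mem_nhdsWithin).exists
  exact ⟨τ, h3, h2⟩

theorem exists_perp (u v : E) : ∃ b : E, b ≠ 0 ∧ inner ℝ u b = 0 ∧ inner ℝ v b = 0 := by
  let L : E →ₗ[ℝ] ℝ × ℝ := LinearMap.prod (innerₛₗ ℝ u) (innerₛₗ ℝ v)
  have hk : LinearMap.ker L ≠ ⊥ := by
    apply LinearMap.ker_ne_bot_of_finrank_lt
    simp
  obtain ⟨b, hb, hb0⟩ := Submodule.exists_mem_ne_zero_of_ne_bot hk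
  refine ⟨b, hb0, ?_, ?_⟩
  · have := congrArg Prod.fst (LinearMap.mem_ker.1 hb)
    simpa [L] using this
  · have := congrArg Prod.snd (LinearMap.mem_ker.1 hb)
    simpa [L] using this

theorem perp_unique (a b p y : E) (ha : a ≠ 0) (hb : b ≠ 0) (hp : p ≠ 0)
    (hab : inner ℝ a b = 0) (hap : inner ℝ a p = 0) (hbp : inner ℝ b p = 0)
    (hay : inner ℝ a y = 0) (hby : inner ℝ b y = 0) : ∃ c : ℝ, y = c • p := by
  have hpp : inner ℝ p p ≠ 0 := fun h => hp (inner_self_eq_zero.1 h)
  refine ⟨inner ℝ p y / inner ℝ p p, ?_⟩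
  by_contra hne
  obtain ⟨y', hy'⟩ : ∃ y', y' = y - (inner ℝ p y / inner ℝ p p) • p := ⟨_, rfl⟩
  have hy0 : y' ≠ 0 := by
    intro h
    rw [h] at hy'
    exact hne (sub_eq_zero.1 hy'.symm)
  have h1 : inner ℝ a y' = 0 := by rw [hy', inner_sub_right, inner_smul_right, hay, hap]; ring
  have h2 : inner ℝ b y' = 0 := by rw [hy', inner_sub_right, inner_smul_right, hby, hbp]; ring
  have h3 : inner ℝ p y' = 0 := by
    rw [hy', inner_sub_right, inner_smul_right]; field_simp; ring
  have hli : LinearIndependent ℝ ![a, b, p, y'] := by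
    apply linearIndependent_of_ne_zero_of_inner_eq_zero
    · intro i; fin_cases i <;> simp [ha, hb, hp, hy0]
    · intro i j hij
      fin_cases i <;> fin_cases j <;> first | exact absurd rfl hij | skip
      all_goals simp
      all_goals first | assumption | (rw [real_inner_comm]; assumption)
  have := hli.fintype_card_le_finrank
  simp at this


theorem edge_cell (a : ι → E) (s : ι → ℝ) (i : ι) (hs : ∀ j, s j = 1 ∨ s j = -1) (ha : a i ≠ 0)
    (y : E) (hy : OnEdge a s i y) : Cell a s := by
  refine ⟨hs, ?_⟩
  have haa : 0 < inner ℝ (a i) (a i) := real_inner_self_pos.2 ha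
  have hsi : s i * s i = 1 := by rcases hs i with h | h <;> rw [h] <;> norm_num
  have key : ∀ j, 0 < s j * inner ℝ (a j) y ∨
      (s j * inner ℝ (a j) y = 0 ∧ 0 < s j * inner ℝ (a j) (s i • a i)) := by
    intro j
    by_cases hj : j = i
    · subst hj
      right
      rw [hy.1, inner_smul_right, ← mul_assoc, hsi]
      exact ⟨by ring, by linarith⟩
    · left; exact hy.2 j hj
  obtain ⟨τ, _, h⟩ := small _ _ key
  refine ⟨y + τ • (s i • a i), fun j => ?_⟩
  have := h j
  rw [inner_add_right, inner_smul_right (𝕜 := ℝ) (a j) (s i • a i) τ]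
  linarith

theorem onEdge_flip (a : ι → E) (s : ι → ℝ) (i : ι) (y : E) :
    OnEdge a (flip s i) i y ↔ OnEdge a s i y := by
  unfold OnEdge
  refine and_congr_right fun _ => forall_congr' fun j => ?_
  refine imp_congr_right fun hj => ?_
  rw [flip_ne _ hj]

theorem strip_small (a : ι → E) (hS : Simple a) (i : ι) (p b : E)
    (ha : a i ≠ 0) (hb : b ≠ 0) (hp : p ≠ 0) (hip : inner ℝ (a i) p = 0)
    (hib : inner ℝ (a i) b = 0) (hbp : inner ℝ b p = 0)
    (hpj : ∀ j, j ≠ i → inner ℝ (a j) p ≠ 0) (s : ι → ℝ) (hs : ∀ j, s j = 1 ∨ s j = -1) :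
    ∃ δ0 : ℝ, 0 < δ0 ∧ ∀ δ, 0 < δ → δ < δ0 → ∀ x : E, (∀ j, 0 < s j * inner ℝ (a j) x) →
      s i * inner ℝ (a i + δ • b) x < 0 → ∃ y, OnEdge a s i y ∧ s i * inner ℝ b y < 0 := by
  by_cases hex : ∃ y, OnEdge a s i y ∧ s i * inner ℝ b y < 0
  · exact ⟨1, one_pos, fun _ _ _ _ _ _ => hex⟩
  have hss : ∀ j, s j * s j = 1 := fun j => by rcases hs j with h | h <;> rw [h] <;> norm_num
  have hs0 : ∀ j, s j ≠ 0 := fun j h => by have := hss j; rw [h] at this; norm_num at this
  obtain ⟨K, hK⟩ : ∃ K : Set E, K = {x | ‖x‖ = 1 ∧ (∀ j, 0 ≤ s j * inner ℝ (a j) x) ∧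
    s i * inner ℝ b x ≤ 0} := ⟨_, rfl⟩
  have hbb : 0 < inner ℝ b b := real_inner_self_pos.2 hb
  have claim : ∀ x ∈ K, 0 < s i * inner ℝ (a i) x := by
    intro x hx
    rw [hK] at hx
    obtain ⟨hx1, hx2, hx3⟩ := hx
    by_contra hle
    push Not at hle
    have h0 : s i * inner ℝ (a i) x = 0 := le_antisymm hle (hx2 i)
    have h0' : inner ℝ (a i) x = 0 := by
      rcases mul_eq_zero.1 h0 with h | h
      · exact absurd h (hs0 i)
      · exact h
    have hxne : x ≠ 0 := by intro h; rw [h] at hx1; simp at hx1
    apply hex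
    by_cases hA : ∃ j0, j0 ≠ i ∧ inner ℝ (a j0) x = 0
    · obtain ⟨j0, hj0, hj0x⟩ := hA
      have hbx : inner ℝ b x ≠ 0 := by
        intro h
        obtain ⟨c, hc⟩ := perp_unique (a i) b p x ha hb hp hib hip hbp h0' h
        rw [hc, inner_smul_right] at hj0x
        rcases mul_eq_zero.1 hj0x with h | h
        · rw [h, zero_smul] at hc; exact hxne hc
        · exact hpj j0 hj0 h
      have hlt : s i * inner ℝ b x < 0 := lt_of_le_of_ne hx3 (mul_ne_zero (hs0 i) hbx)
      have key : ∀ j, 0 < (if j = i then (1:ℝ) else s j * inner ℝ (a j) x) ∨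
          ((if j = i then (1:ℝ) else s j * inner ℝ (a j) x) = 0 ∧
            0 < (if j = i then (0:ℝ) else s j * inner ℝ (a j) ((s j0 * inner ℝ (a j0) p) • p))) := by
        intro j
        by_cases hj : j = i
        · left; simp [hj]
        · rw [if_neg hj, if_neg hj]
          by_cases hjj : j = j0
          · right
            subst hjj
            refine ⟨by rw [hj0x]; ring, ?_⟩
            rw [inner_smul_right]
            have h1 := hpj j hj
            have h2 := hs0 j
            have : 0 < (s j * inner ℝ (a j) p) * (s j * inner ℝ (a j) p) :=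
              mul_self_pos.2 (mul_ne_zero h2 h1)
            nlinarith
          · left
            have h1 : inner ℝ (a j) x ≠ 0 := by
              intro h
              exact hxne (hS i j0 j (Ne.symm hj0) (Ne.symm hjj) (Ne.symm hj) x h0' hj0x h)
            exact lt_of_le_of_ne (hx2 j) (Ne.symm (mul_ne_zero (hs0 j) h1))
      obtain ⟨τ, _, hτ⟩ := small _ _ key
      refine ⟨x + τ • ((s j0 * inner ℝ (a j0) p) • p), ⟨?_, ?_⟩, ?_⟩
      · rw [inner_add_right, inner_smul_right, inner_smul_right, h0', hip]; ring
      · intro j hj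
        have := hτ j
        rw [if_neg hj, if_neg hj] at this
        rw [inner_add_right, inner_smul_right (𝕜 := ℝ) (a j) _ τ]
        linarith
      · rw [inner_add_right, inner_smul_right, inner_smul_right, hbp]
        linarith
    · push Not at hA
      have key : ∀ j, 0 < (if j = i then (1:ℝ) else s j * inner ℝ (a j) x) ∨
          ((if j = i then (1:ℝ) else s j * inner ℝ (a j) x) = 0 ∧
            0 < (if j = i then (0:ℝ) else s j * inner ℝ (a j) ((-s i) • b))) := by
        intro j
        by_cases hj : j = i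
        · left; simp [hj]
        · rw [if_neg hj, if_neg hj]
          left
          exact lt_of_le_of_ne (hx2 j) (Ne.symm (mul_ne_zero (hs0 j) (hA j hj)))
      obtain ⟨τ, hτ0, hτ⟩ := small _ _ key
      refine ⟨x + τ • ((-s i) • b), ⟨?_, ?_⟩, ?_⟩
      · rw [inner_add_right, inner_smul_right, inner_smul_right, h0', hib]; ring
      · intro j hj
        have := hτ j
        rw [if_neg hj, if_neg hj] at this
        rw [inner_add_right, inner_smul_right (𝕜 := ℝ) (a j) _ τ]
        linarith
      · rw [inner_add_right, inner_smul_right, inner_smul_right]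
        have e : s i * (inner ℝ b x + τ * (-s i * inner ℝ b b)) =
          s i * inner ℝ b x - τ * inner ℝ b b * (s i * s i) := by ring
        rw [e, hss i]
        nlinarith [mul_pos hτ0 hbb]
  -- compactness
  have hKc : IsCompact K := by
    apply Metric.isCompact_of_isClosed_isBounded
    · rw [hK]
      have c1 : IsClosed {x : E | ‖x‖ = 1} := isClosed_eq continuous_norm continuous_const
      have c2 : IsClosed {x : E | ∀ j, 0 ≤ s j * inner ℝ (a j) x} := by
        rw [Set.setOf_forall]
        exact isClosed_iInter fun j => isClosed_le continuous_const (by fun_prop)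
      have c3 : IsClosed {x : E | s i * inner ℝ b x ≤ 0} :=
        isClosed_le (by fun_prop) continuous_const
      exact c1.inter (c2.inter c3)
    · rw [hK]
      apply (Metric.isBounded_closedBall (x := (0:E)) (r := 1)).subset
      rintro x ⟨hx, _⟩
      simp [hx]
  have hnorm : ∀ x : E, (∀ j, 0 < s j * inner ℝ (a j) x) → x ≠ 0 := by
    intro x hx h
    have := hx i
    rw [h] at this; simp at this
  -- scaling into K
  have hscale : ∀ x : E, (∀ j, 0 < s j * inner ℝ (a j) x) → s i * inner ℝ b x ≤ 0 →
      ‖x‖⁻¹ • x ∈ K := by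
    intro x hx hbx
    have hx0 := hnorm x hx
    have hpos : 0 < ‖x‖⁻¹ := inv_pos.2 (norm_pos_iff.2 hx0)
    rw [hK]
    refine ⟨?_, ?_, ?_⟩
    · rw [norm_smul, norm_inv, norm_norm, inv_mul_cancel₀ (norm_ne_zero_iff.2 hx0)]
    · intro j
      rw [inner_smul_right]
      have := hx j
      have := mul_pos hpos this
      linarith
    · rw [inner_smul_right]
      have := mul_nonneg hpos.le (neg_nonneg.2 hbx)
      linarith
  by_cases hKe : K.Nonempty
  · obtain ⟨xm, hxm, hmin⟩ := hKc.exists_isMinOn hKe
      (f := fun x => s i * inner ℝ (a i) x) (by fun_prop)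
    have hm := claim xm hxm
    have hbn : 0 < ‖b‖ := norm_pos_iff.2 hb
    refine ⟨(s i * inner ℝ (a i) xm) / ‖b‖, div_pos hm hbn, ?_⟩
    intro δ hδ hδ' x hx hlt
    exfalso
    rw [lt_div_iff₀ hbn] at hδ'
    rw [inner_add_left, inner_smul_left] at hlt
    simp only [conj_trivial] at hlt
    rcases le_or_gt (s i * inner ℝ b x) 0 with hbx | hbx
    · have hmem := hscale x hx hbx
      have h1 := hmin hmem
      simp only [Set.mem_ofPred_eq] at h1
      have hx0 := hnorm x hx
      have hnx : 0 < ‖x‖ := norm_pos_iff.2 hx0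
      rw [inner_smul_right] at h1
      have h2 : ‖x‖ * (s i * inner ℝ (a i) xm) ≤ s i * inner ℝ (a i) x := by
        have := mul_le_mul_of_nonneg_left h1 hnx.le
        have e : ‖x‖ * (s i * (‖x‖⁻¹ * inner ℝ (a i) x)) = (‖x‖ * ‖x‖⁻¹) * (s i * inner ℝ (a i) x) := by
          ring
        rw [e, mul_inv_cancel₀ hnx.ne', one_mul] at this
        exact this
      have h3 : -(‖b‖ * ‖x‖) ≤ s i * inner ℝ b x := by
        have := abs_real_inner_le_norm b x
        have h4 := abs_le.1 this
        rcases hs i with h | h <;> rw [h] <;> linarith [h4.1, h4.2]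
      have h5 : δ * (-(‖b‖ * ‖x‖)) ≤ δ * (s i * inner ℝ b x) := mul_le_mul_of_nonneg_left h3 hδ.le
      have h6 : ‖x‖ * (δ * ‖b‖) < ‖x‖ * (s i * inner ℝ (a i) xm) := mul_lt_mul_of_pos_left hδ' hnx
      nlinarith
    · have h1 := hx i
      have h2 := mul_pos hδ hbx
      nlinarith
  · refine ⟨1, one_pos, ?_⟩
    intro δ hδ _ x hx hlt
    exfalso
    rw [inner_add_left, inner_smul_left] at hlt
    simp only [conj_trivial] at hlt
    rcases le_or_gt (s i * inner ℝ b x) 0 with hbx | hbx
    · exact hKe ⟨_, hscale x hx hbx⟩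
    · have h1 := hx i
      have h2 := mul_pos hδ hbx
      nlinarith

theorem three_edges (a : ι → E) (i : ι) (ha : a i ≠ 0) (s : ι → ℝ) (y : E) (hy : OnEdge a s i y)
    (j : Fin 3 → ι) (hj : Function.Injective j) (hji : ∀ k, j k ≠ i) (z : Fin 3 → E)
    (hz : ∀ k, OnEdge a (flip s (j k)) i (z k)) : False := by
  have hw : ∃ w : Fin 3 → E, ∀ k, inner ℝ (a i) (w k) = 0 ∧
      s (j k) * inner ℝ (a (j k)) (w k) = 0 ∧
      ∀ l, l ≠ k → 0 < s (j l) * inner ℝ (a (j l)) (w k) := by
    refine ⟨fun k => (-(s (j k) * inner ℝ (a (j k)) (z k))) • y +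
      (s (j k) * inner ℝ (a (j k)) y) • z k, fun k => ⟨?_, ?_, ?_⟩⟩
    · rw [inner_add_right, inner_smul_right, inner_smul_right, hy.1, (hz k).1]; ring
    · rw [inner_add_right, inner_smul_right, inner_smul_right]; ring
    · intro l hl
      rw [inner_add_right, inner_smul_right, inner_smul_right]
      have h1 : 0 < -(s (j k) * inner ℝ (a (j k)) (z k)) := by
        have := (hz k).2 (j k) (hji k)
        rw [flip_self] at this
        linarith
      have h2 := hy.2 (j k) (hji k)
      have h3 := hy.2 (j l) (hji l)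
      have h4 : 0 < s (j l) * inner ℝ (a (j l)) (z k) := by
        have := (hz k).2 (j l) (hji l)
        rwa [flip_ne _ (fun h => hl (hj h))] at this
      have := mul_pos h1 h3
      have := mul_pos h2 h4
      nlinarith
  obtain ⟨w, hw⟩ := hw
  let L : (Fin 4 → ℝ) →ₗ[ℝ] E := Fintype.linearCombination ℝ ![w 0, w 1, w 2, a i]
  have hk : LinearMap.ker L ≠ ⊥ := by
    apply LinearMap.ker_ne_bot_of_finrank_lt
    simp
  obtain ⟨c, hc, hc0⟩ := Submodule.exists_mem_ne_zero_of_ne_bot hk
  have hL : c 0 • w 0 + c 1 • w 1 + c 2 • w 2 + c 3 • a i = 0 := by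
    have := LinearMap.mem_ker.1 hc
    simp only [L, Fintype.linearCombination_apply, Fin.sum_univ_four] at this
    simpa using this
  have haa : inner ℝ (a i) (a i) ≠ 0 := fun h => ha (inner_self_eq_zero.1 h)
  have hc3 : c 3 = 0 := by
    have := congrArg (fun v => inner ℝ (a i) v) hL
    simp only [inner_add_right, inner_smul_right, (hw 0).1, (hw 1).1, (hw 2).1, inner_zero_right]
      at this
    have h : c 3 * inner ℝ (a i) (a i) = 0 := by linarith
    rcases mul_eq_zero.1 h with h | h
    · exact h
    · exact absurd h haa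
  rw [hc3, zero_smul, add_zero] at hL
  have e : ∀ k : Fin 3, c 0 * (s (j k) * inner ℝ (a (j k)) (w 0)) +
      c 1 * (s (j k) * inner ℝ (a (j k)) (w 1)) + c 2 * (s (j k) * inner ℝ (a (j k)) (w 2)) = 0 := by
    intro k
    have := congrArg (fun v => inner ℝ (a (j k)) v) hL
    simp only [inner_add_right, inner_smul_right, inner_zero_right] at this
    linear_combination (s (j k)) * this
  have e0 := e 0
  have e1 := e 1
  have e2 := e 2
  rw [(hw 0).2.1] at e0
  rw [(hw 1).2.1] at e1
  rw [(hw 2).2.1] at e2
  have p01 := (hw 1).2.2 0 (by decide)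
  have p02 := (hw 2).2.2 0 (by decide)
  have p10 := (hw 0).2.2 1 (by decide)
  have p12 := (hw 2).2.2 1 (by decide)
  have p20 := (hw 0).2.2 2 (by decide)
  have p21 := (hw 1).2.2 2 (by decide)
  have aux : ∀ u v A B : ℝ, 0 < A → 0 < B → u * A + v * B = 0 →
      (0 < u → v < 0) ∧ (u < 0 → 0 < v) ∧ (u = 0 → v = 0) := by
    intro u v A B hA hB h
    refine ⟨fun hu => ?_, fun hu => ?_, fun hu => ?_⟩
    · by_contra hv
      push Not at hv
      nlinarith [mul_pos hu hA, mul_nonneg hv hB.le]
    · by_contra hv
      push Not at hv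
      nlinarith [mul_pos (neg_pos.2 hu) hA, mul_nonneg (neg_nonneg.2 hv) hB.le]
    · rw [hu, zero_mul, zero_add] at h
      rcases mul_eq_zero.1 h with h | h
      · exact h
      · exact absurd h hB.ne'
  have a0 := aux (c 1) (c 2) _ _ p01 p02 (by linarith)
  have a1 := aux (c 0) (c 2) _ _ p10 p12 (by linarith)
  have a2 := aux (c 0) (c 1) _ _ p20 p21 (by linarith)
  rcases lt_trichotomy (c 0) 0 with h | h | h
  · have h1 := a1.2.1 h
    have h2 := a2.2.1 h
    have h3 := a0.1 h2
    linarith
  · have h1 := a1.2.2 h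
    have h2 := a2.2.2 h
    apply hc0
    funext k
    fin_cases k
    · exact h
    · exact h2
    · exact h1
    · exact hc3
  · have h1 := a1.1 h
    have h2 := a2.1 h
    have h3 := a0.2.1 h2
    linarith

open Classical in
theorem strip_nbrs (a : ι → E) (i : ι) (ha : a i ≠ 0) (s : ι → ℝ) (y : E)
    (hy : OnEdge a s i y) :
    (Finset.univ.filter (fun j => j ≠ i ∧ ∃ z, OnEdge a (flip s j) i z)).card ≤ 2 := by
  by_contra hcon
  push Not at hcon
  rw [Finset.two_lt_card] at hcon
  obtain ⟨j0, h0, j1, h1, j2, h2, h01, h02, h12⟩ := hcon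
  simp only [Finset.mem_filter, Finset.mem_univ, true_and] at h0 h1 h2
  obtain ⟨n0, z0, h0⟩ := h0
  obtain ⟨n1, z1, h1⟩ := h1
  obtain ⟨n2, z2, h2⟩ := h2
  refine three_edges a i ha s y hy ![j0, j1, j2] ?_ ?_ ![z0, z1, z2] ?_
  · intro u v huv
    fin_cases u <;> fin_cases v <;> simp at huv ⊢
    · exact h01 huv
    · exact h02 huv
    · exact h01 huv.symm
    · exact h12 huv
    · exact h02 huv.symm
    · exact h12 huv.symm
  · intro k; fin_cases k <;> simpa
  · intro k; fin_cases k <;> simpa


theorem cell_neg (a : ι → E) (s : ι → ℝ) (h : Cell a s) : Cell a (fun j => - s j) := by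
  obtain ⟨hs, x, hx⟩ := h
  refine ⟨fun j => ?_, -x, fun j => ?_⟩
  · show -s j = 1 ∨ -s j = -1
    rcases hs j with h | h
    · right; rw [h]
    · left; rw [h]; norm_num
  · rw [inner_neg_right]
    have := hx j
    linarith

theorem flip_neg (s : ι → ℝ) (i : ι) : flip (fun j => - s j) i = fun j => - (flip s i j) := by
  funext j
  by_cases h : j = i
  · subst h; rw [flip_self, flip_self]
  · rw [flip_ne _ h, flip_ne _ h]

theorem walls_neg (a : ι → E) (s : ι → ℝ) : walls a (fun j => - s j) = walls a s := by
  classical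
  unfold walls
  apply Finset.filter_congr
  intro i _
  rw [flip_neg]
  constructor
  · intro h
    have := cell_neg a _ h
    simpa using this
  · intro h
    exact cell_neg a _ h

/-- add one more vector -/
def ext (a : ι → E) (v : E) : Option ι → E := fun o => o.elim v a

/-- restriction of a sign vector -/
def res (s : Option ι → ℝ) : ι → ℝ := fun j => s (some j)

theorem cell_res (a : ι → E) (v : E) (s : Option ι → ℝ) (h : Cell (ext a v) s) :
    Cell a (res s) := by
  obtain ⟨hs, x, hx⟩ := h
  exact ⟨fun j => hs (some j), x, fun j => hx (some j)⟩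

theorem res_flip (s : Option ι → ℝ) (j : ι) : res (flip s (some j)) = flip (res s) j := by
  funext k
  by_cases h : k = j
  · subst h
    show flip s (some k) (some k) = _
    rw [flip_self, flip_self]; rfl
  · show flip s (some j) (some k) = _
    rw [flip_ne _ h, flip_ne _ (fun e => h (Option.some_injective _ e))]; rfl

theorem res_flip_none (s : Option ι → ℝ) : res (flip s none) = res s := by
  funext k
  show flip s none (some k) = _
  rw [flip_ne _ (by simp)]; rfl

/-- the new vector only cuts the cells along the edges of `i` on the right side -/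
def Hyp (a : ι → E) (i : ι) (b v : E) : Prop :=
  ∀ s : Option ι → ℝ, Cell (ext a v) s → s none ≠ s (some i) →
    ∃ y, OnEdge a (res s) i y ∧ s (some i) * inner ℝ b y < 0

theorem strip_deg (a : ι → E) (i : ι) (ha : a i ≠ 0) (b v : E) (H : Hyp a i b v)
    (s : Option ι → ℝ) (hs : Cell (ext a v) s) (hne : s none ≠ s (some i)) :
    (walls (ext a v) s).card ≤ 4 := by
  classical
  obtain ⟨y, hy, _⟩ := H s hs hne
  have h2 := strip_nbrs a i ha (res s) y hy
  have hsub : walls (ext a v) s ⊆ insert none (insert (some i)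
      ((Finset.univ.filter (fun j => j ≠ i ∧ ∃ z, OnEdge a (flip (res s) j) i z)).image some)) := by
    intro o ho
    rw [walls, Finset.mem_filter] at ho
    rcases o with _ | j
    · simp
    · by_cases hj : j = i
      · simp [hj]
      · have hc := ho.2
        have hn : flip s (some j) none ≠ flip s (some j) (some i) := by
          rw [flip_ne _ (by simp), flip_ne _ (fun e => hj (Option.some_injective _ e).symm)]
          exact hne
        obtain ⟨z, hz, _⟩ := H _ hc hn
        rw [res_flip] at hz
        apply Finset.mem_insert_of_mem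
        apply Finset.mem_insert_of_mem
        apply Finset.mem_image_of_mem
        simp only [Finset.mem_filter, Finset.mem_univ, true_and]
        exact ⟨hj, z, hz⟩
  refine (Finset.card_le_card hsub).trans ?_
  refine (Finset.card_insert_le _ _).trans ?_
  refine Nat.succ_le_succ ((Finset.card_insert_le _ _).trans ?_)
  refine Nat.succ_le_succ (Finset.card_image_le.trans h2)

theorem pm_eq {s t u : ℝ} (hs : s = 1 ∨ s = -1) (ht : t = 1 ∨ t = -1) (h1 : 0 < s * u)
    (h2 : 0 < t * u) : s = t := by
  rcases hs with rfl | rfl <;> rcases ht with rfl | rfl <;> first | rfl | (exfalso; linarith)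

theorem big_deg (a : ι → E) (i j0 : ι) (hj0 : j0 ≠ i) (ha : a i ≠ 0) (p b v : E) (hb : b ≠ 0)
    (hp : p ≠ 0) (hip : inner ℝ (a i) p = 0) (hib : inner ℝ (a i) b = 0) (hbp : inner ℝ b p = 0)
    (H : Hyp a i b v) (s0 : ι → ℝ) (hs0 : ∀ j, s0 j = 1 ∨ s0 j = -1) (hs0p : OnEdge a s0 i p)
    (h4 : (walls a s0).card ≤ 4) (h4' : (walls a (flip s0 i)).card ≤ 4)
    (h5 : ∀ s, Cell a s → (walls a s).card ≤ 5)
    (s : Option ι → ℝ) (hs : Cell (ext a v) s) (hne : s none = s (some i)) :
    (walls (ext a v) s).card ≤ 5 := by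
  classical
  have hsr := cell_res a v s hs
  have hpm := hs.1
  have hsi0 : s (some i) ≠ - s (some i) := by
    rcases hpm (some i) with h | h <;> rw [h] <;> norm_num
  have hN : none ∈ walls (ext a v) s →
      ∃ y, OnEdge a (res s) i y ∧ s (some i) * inner ℝ b y < 0 := by
    intro h
    rw [walls, Finset.mem_filter] at h
    obtain ⟨y, hy, hy'⟩ := H _ h.2 (by
      rw [flip_self, flip_ne _ (by simp), hne]
      exact hsi0.symm)
    rw [res_flip_none] at hy
    rw [flip_ne _ (by simp)] at hy'
    exact ⟨y, hy, hy'⟩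
  have hI : some i ∈ walls (ext a v) s →
      ∃ y, OnEdge a (res s) i y ∧ 0 < s (some i) * inner ℝ b y := by
    intro h
    rw [walls, Finset.mem_filter] at h
    obtain ⟨y, hy, hy'⟩ := H _ h.2 (by
      rw [flip_self, flip_ne _ (by simp), hne]
      exact hsi0)
    rw [res_flip, onEdge_flip] at hy
    rw [flip_self] at hy'
    exact ⟨y, hy, by linarith⟩
  have hIn : ∀ y, OnEdge a (res s) i y → i ∈ walls a (res s) := by
    intro y hy
    rw [walls, Finset.mem_filter]
    exact ⟨Finset.mem_univ _, edge_cell a _ i (flip_pm hsr.1 i) ha y ((onEdge_flip a _ i y).2 hy)⟩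
  have hJ : ∀ j, some j ∈ walls (ext a v) s → j ∈ walls a (res s) := by
    intro j h
    rw [walls, Finset.mem_filter] at h ⊢
    refine ⟨Finset.mem_univ _, ?_⟩
    have := cell_res a v _ h.2
    rwa [res_flip] at this
  by_cases hboth : none ∈ walls (ext a v) s ∧ some i ∈ walls (ext a v) s
  · obtain ⟨y, hy, hyb⟩ := hN hboth.1
    obtain ⟨y', hy', hyb'⟩ := hI hboth.2
    obtain ⟨z, hz⟩ : ∃ z, z = (s (some i) * inner ℝ b y') • y +
      (-(s (some i) * inner ℝ b y)) • y' := ⟨_, rfl⟩
    have hbz : inner ℝ b z = 0 := by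
      rw [hz, inner_add_right, inner_smul_right, inner_smul_right]; ring
    have hiz : inner ℝ (a i) z = 0 := by
      rw [hz, inner_add_right, inner_smul_right, inner_smul_right, hy.1, hy'.1]; ring
    have hjz : ∀ j, j ≠ i → 0 < res s j * inner ℝ (a j) z := by
      intro j hj
      rw [hz, inner_add_right, inner_smul_right, inner_smul_right]
      have h1 := mul_pos hyb' (hy.2 j hj)
      have h2 := mul_pos (neg_pos.2 hyb) (hy'.2 j hj)
      nlinarith
    obtain ⟨c, hc⟩ := perp_unique (a i) b p z ha hb hp hib hip hbp hiz hbz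
    have hcase : (walls a (res s)).card ≤ 4 := by
      have hc0 : c ≠ 0 := by
        intro h
        have := hjz j0 hj0
        rw [hc, h, zero_smul, inner_zero_right, mul_zero] at this
        exact lt_irrefl _ this
      rcases lt_or_gt_of_ne hc0 with hneg | hpos
      · have hoff : ∀ j, j ≠ i → res s j = - s0 j := by
          intro j hj
          have h1 := hjz j hj
          rw [hc, inner_smul_right] at h1
          have h2 := hs0p.2 j hj
          refine pm_eq (u := c * inner ℝ (a j) p) (hsr.1 j) ?_ h1 ?_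
          · rcases hs0 j with h | h
            · right; rw [h]
            · left; rw [h]; norm_num
          · nlinarith [mul_pos (neg_pos.2 hneg) h2]
        rcases hsr.1 i with hi | hi <;> rcases hs0 i with hi0 | hi0
        · have : res s = fun j => - (flip s0 i j) := by
            funext j
            by_cases hj : j = i
            · subst hj; rw [flip_self, hi, hi0]; norm_num
            · rw [flip_ne _ hj]; exact hoff j hj
          rw [this, walls_neg]; exact h4'
        · have : res s = fun j => - (s0 j) := by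
            funext j
            by_cases hj : j = i
            · subst hj; rw [hi, hi0]; norm_num
            · exact hoff j hj
          rw [this, walls_neg]; exact h4
        · have : res s = fun j => - (s0 j) := by
            funext j
            by_cases hj : j = i
            · subst hj; rw [hi, hi0]
            · exact hoff j hj
          rw [this, walls_neg]; exact h4
        · have : res s = fun j => - (flip s0 i j) := by
            funext j
            by_cases hj : j = i
            · subst hj; rw [flip_self, hi, hi0]; norm_num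
            · rw [flip_ne _ hj]; exact hoff j hj
          rw [this, walls_neg]; exact h4'
      · have hoff : ∀ j, j ≠ i → res s j = s0 j := by
          intro j hj
          have h1 := hjz j hj
          rw [hc, inner_smul_right] at h1
          have h2 := hs0p.2 j hj
          refine pm_eq (u := c * inner ℝ (a j) p) (hsr.1 j) (hs0 j) h1 ?_
          nlinarith [mul_pos hpos h2]
        rcases hsr.1 i with hi | hi <;> rcases hs0 i with hi0 | hi0
        · have : res s = s0 := by
            funext j
            by_cases hj : j = i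
            · subst hj; rw [hi, hi0]
            · exact hoff j hj
          rw [this]; exact h4
        · have : res s = flip s0 i := by
            funext j
            by_cases hj : j = i
            · subst hj; rw [flip_self, hi, hi0]; norm_num
            · rw [flip_ne _ hj]; exact hoff j hj
          rw [this]; exact h4'
        · have : res s = flip s0 i := by
            funext j
            by_cases hj : j = i
            · subst hj; rw [flip_self, hi, hi0]
            · rw [flip_ne _ hj]; exact hoff j hj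
          rw [this]; exact h4'
        · have : res s = s0 := by
            funext j
            by_cases hj : j = i
            · subst hj; rw [hi, hi0]
            · exact hoff j hj
          rw [this]; exact h4
    have hsub : walls (ext a v) s ⊆ insert none ((walls a (res s)).image some) := by
      intro o ho
      rcases o with _ | j
      · simp
      · exact Finset.mem_insert_of_mem (Finset.mem_image_of_mem _ (hJ j ho))
    refine (Finset.card_le_card hsub).trans ((Finset.card_insert_le _ _).trans ?_)
    exact Nat.succ_le_succ (Finset.card_image_le.trans hcase)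
  · have hr5 := h5 _ hsr
    by_cases hn : none ∈ walls (ext a v) s
    · have hi : some i ∉ walls (ext a v) s := fun h => hboth ⟨hn, h⟩
      obtain ⟨y, hy, _⟩ := hN hn
      have hiw := hIn y hy
      have hsub : walls (ext a v) s ⊆ insert none (((walls a (res s)).erase i).image some) := by
        intro o ho
        rcases o with _ | j
        · simp
        · refine Finset.mem_insert_of_mem (Finset.mem_image_of_mem _ ?_)
          rw [Finset.mem_erase]
          refine ⟨?_, hJ j ho⟩
          rintro rfl
          exact hi ho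
      refine (Finset.card_le_card hsub).trans ((Finset.card_insert_le _ _).trans ?_)
      have h1 := Finset.card_erase_of_mem hiw
      have h2 : (((walls a (res s)).erase i).image some).card ≤ _ := Finset.card_image_le
      omega
    · have hsub : walls (ext a v) s ⊆ (walls a (res s)).image some := by
        intro o ho
        rcases o with _ | j
        · exact absurd ho hn
        · exact Finset.mem_image_of_mem _ (hJ j ho)
      exact (Finset.card_le_card hsub).trans (Finset.card_image_le.trans hr5)

theorem strip_cell (a : ι → E) (i : ι) (ha : a i ≠ 0) (b : E) (s : ι → ℝ)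
    (hs : ∀ j, s j = 1 ∨ s j = -1) (y : E) (hy : OnEdge a s i y) (hb : s i * inner ℝ b y < 0)
    (δ : ℝ) (hδ : 0 < δ) :
    Cell (ext a (a i + δ • b)) (fun o : Option ι => o.elim (-s i) s) := by
  have haa : 0 < inner ℝ (a i) (a i) := real_inner_self_pos.2 ha
  have hsi : s i * s i = 1 := by rcases hs i with h | h <;> rw [h] <;> norm_num
  have key : ∀ o : Option ι,
      0 < (o.elim (-s i) s : ℝ) * inner ℝ (ext a (a i + δ • b) o) y ∨
      ((o.elim (-s i) s : ℝ) * inner ℝ (ext a (a i + δ • b) o) y = 0 ∧
        0 < (o.elim (-s i) s : ℝ) * inner ℝ (ext a (a i + δ • b) o) (s i • a i)) := by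
    intro o
    rcases o with _ | j
    · left
      show 0 < (-s i) * inner ℝ (a i + δ • b) y
      rw [inner_add_left, inner_smul_left, hy.1]
      simp only [conj_trivial]
      have := mul_pos hδ (neg_pos.2 hb)
      nlinarith
    · show 0 < s j * inner ℝ (a j) y ∨ (s j * inner ℝ (a j) y = 0 ∧
        0 < s j * inner ℝ (a j) (s i • a i))
      by_cases hj : j = i
      · subst hj
        right
        rw [hy.1, inner_smul_right, ← mul_assoc, hsi]
        exact ⟨by ring, by linarith⟩
      · left; exact hy.2 j hj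
  obtain ⟨τ, _, h⟩ := small _ _ key
  refine ⟨?_, y + τ • (s i • a i), fun o => ?_⟩
  · intro o
    rcases o with _ | j
    · show -s i = 1 ∨ -s i = -1
      rcases hs i with h | h
      · right; rw [h]
      · left; rw [h]; norm_num
    · exact hs j
  · have := h o
    rw [inner_add_right, inner_smul_right (𝕜 := ℝ) _ (s i • a i) τ]
    linarith

/-- good arrangements: simple, at most five walls everywhere, and an edge between two cells with
at most four walls -/
structure Good (a : ι → E) : Prop where
  ne : ∀ i, a i ≠ 0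
  simple : Simple a
  deg5 : ∀ s, Cell a s → (walls a s).card ≤ 5
  ex : ∃ s i, Cell a s ∧ Cell a (flip s i) ∧ (walls a s).card ≤ 4 ∧ (walls a (flip s i)).card ≤ 4

theorem finite_pm : {s : ι → ℝ | ∀ j, s j = 1 ∨ s j = -1}.Finite := by
  have : {s : ι → ℝ | ∀ j, s j = 1 ∨ s j = -1} = Set.univ.pi (fun _ => ({1, -1} : Set ℝ)) := by
    ext s; simp [Set.mem_pi]
  rw [this]
  exact Set.Finite.pi (fun _ => Set.toFinite _)

theorem step (a : ι → E) (h2 : ∀ i : ι, ∃ j, j ≠ i) (hG : Good a) :
    ∃ a' : Option ι → E, Good a' := by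
  obtain ⟨ne, hS, h5, s0, i, hs0, hs0i, h4, h4'⟩ := hG
  obtain ⟨hpm, x1, hx1⟩ := hs0
  obtain ⟨_, x2, hx2⟩ := hs0i
  obtain ⟨j0, hj0⟩ := h2 i
  -- the point p on the edge
  obtain ⟨p, hp⟩ : ∃ p, p = (-(s0 i * inner ℝ (a i) x2)) • x1 + (s0 i * inner ℝ (a i) x1) • x2 :=
    ⟨_, rfl⟩
  have hpe : OnEdge a s0 i p := by
    constructor
    · rw [hp, inner_add_right, inner_smul_right, inner_smul_right]; ring
    · intro j hj
      rw [hp, inner_add_right, inner_smul_right, inner_smul_right]
      have e1 := hx1 i
      have e2 := hx2 i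
      rw [flip_self] at e2
      have e2' : 0 < -(s0 i * inner ℝ (a i) x2) := by linarith
      have e3 := hx1 j
      have e4 := hx2 j
      rw [flip_ne _ hj] at e4
      nlinarith [mul_pos e2' e3, mul_pos e1 e4]
  have hp0 : p ≠ 0 := by
    intro h
    have := hpe.2 j0 hj0
    rw [h, inner_zero_right, mul_zero] at this
    exact lt_irrefl _ this
  have hs00 : ∀ j, s0 j ≠ 0 := fun j h => by rcases hpm j with h' | h' <;> rw [h] at h' <;> norm_num at h'
  have hss : s0 i * s0 i = 1 := by rcases hpm i with h | h <;> rw [h] <;> norm_num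
  have hpj : ∀ j, j ≠ i → inner ℝ (a j) p ≠ 0 := by
    intro j hj h
    have := hpe.2 j hj
    rw [h, mul_zero] at this
    exact lt_irrefl _ this
  obtain ⟨b, hb, hib, hpb⟩ := exists_perp (a i) p
  have hbp : inner ℝ b p = 0 := by rw [real_inner_comm]; exact hpb
  have hbb : 0 < inner ℝ b b := real_inner_self_pos.2 hb
  have haa : 0 < inner ℝ (a i) (a i) := real_inner_self_pos.2 (ne i)
  -- choice of δ
  have ev1 : ∀ᶠ δ : ℝ in 𝓝[>] 0, ∀ s ∈ {s : ι → ℝ | ∀ j, s j = 1 ∨ s j = -1},
      ∀ x : E, (∀ j, 0 < s j * inner ℝ (a j) x) →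
      s i * inner ℝ (a i + δ • b) x < 0 → ∃ y, OnEdge a s i y ∧ s i * inner ℝ b y < 0 := by
    rw [Filter.eventually_all_finite finite_pm]
    intro s hs
    obtain ⟨δ0, hδ0, h⟩ := strip_small a hS i p b (ne i) hb hp0 hpe.1 hib hbp hpj s hs
    have : Set.Ioo 0 δ0 ∈ 𝓝[>] (0:ℝ) := Ioo_mem_nhdsGT hδ0
    filter_upwards [this] with δ hδ
    exact h δ hδ.1 hδ.2
  have ev2 : ∀ᶠ δ : ℝ in 𝓝[>] 0, ∀ j k, j ≠ k → j ≠ i → k ≠ i → ∀ x : E,
      inner ℝ (a i + δ • b) x = 0 → inner ℝ (a j) x = 0 → inner ℝ (a k) x = 0 → x = 0 := by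
    rw [Filter.eventually_all]
    intro j
    rw [Filter.eventually_all]
    intro k
    by_cases hjk : j ≠ k ∧ j ≠ i ∧ k ≠ i
    · obtain ⟨hjk, hji, hki⟩ := hjk
      obtain ⟨w, hw, hjw, hkw⟩ := exists_perp (a j) (a k)
      have hiw : inner ℝ (a i) w ≠ 0 := fun h => hw (hS i j k hji.symm hjk hki.symm w h hjw hkw)
      have hc : ContinuousAt (fun δ : ℝ => inner ℝ (a i) w + δ * inner ℝ b w) 0 := by fun_prop
      have : ∀ᶠ δ : ℝ in 𝓝 0, inner ℝ (a i) w + δ * inner ℝ b w ≠ 0 := by
        apply hc.eventually_ne
        simpa using hiw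
      filter_upwards [this.filter_mono nhdsWithin_le_nhds] with δ hδ _ _ _ x hx hjx hkx
      obtain ⟨c, hc⟩ : ∃ c, c = inner ℝ (a i) x / inner ℝ (a i) w := ⟨_, rfl⟩
      have hxw : x = c • w := by
        have : x - c • w = 0 := by
          apply hS i j k hji.symm hjk hki.symm
          · rw [inner_sub_right, inner_smul_right, hc]; field_simp; ring
          · rw [inner_sub_right, inner_smul_right, hjx, hjw]; ring
          · rw [inner_sub_right, inner_smul_right, hkx, hkw]; ring
        exact sub_eq_zero.1 this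
      rw [hxw, inner_smul_right, inner_add_left, inner_smul_left] at hx
      simp only [conj_trivial] at hx
      rcases mul_eq_zero.1 hx with h | h
      · rw [hxw, h, zero_smul]
      · exact absurd h hδ
    · refine Filter.Eventually.of_forall fun δ h1 h2 h3 => absurd ⟨h1, h2, h3⟩ hjk
  obtain ⟨δ, ⟨hδ1, hδ2⟩, hδ⟩ := ((ev1.and ev2).and self_mem_nhdsWithin).exists
  have hδ : 0 < δ := hδ
  obtain ⟨v, hv⟩ : ∃ v, v = a i + δ • b := ⟨_, rfl⟩
  have hv0 : v ≠ 0 := by
    intro h
    have : inner ℝ (a i) v = 0 := by rw [h, inner_zero_right]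
    rw [hv, inner_add_right, inner_smul_right, hib] at this
    linarith
  have H : Hyp a i b v := by
    intro s hs hne
    obtain ⟨hs1, x, hx⟩ := hs
    have := hδ1 (res s) (fun j => hs1 (some j)) x (fun j => hx (some j)) ?_
    · exact this
    · have h1 := hx none
      have h2 : s none = - s (some i) := by
        rcases hs1 none with h | h <;> rcases hs1 (some i) with h' | h'
        · exact absurd (h.trans h'.symm) hne
        · rw [h, h']; norm_num
        · rw [h, h']
        · exact absurd (h.trans h'.symm) hne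
      rw [h2] at h1
      have h1' : 0 < -s (some i) * inner ℝ v x := h1
      rw [← hv]
      show s (some i) * inner ℝ v x < 0
      linarith
  -- simplicity of the new arrangement
  have hT : ∀ j k, j ≠ k → ∀ x : E, inner ℝ v x = 0 → inner ℝ (a j) x = 0 →
      inner ℝ (a k) x = 0 → x = 0 := by
    have hTi : ∀ k, k ≠ i → ∀ x : E, inner ℝ v x = 0 → inner ℝ (a i) x = 0 →
        inner ℝ (a k) x = 0 → x = 0 := by
      intro k hk x hx hix hkx
      have hbx : inner ℝ b x = 0 := by
        rw [hv, inner_add_left, inner_smul_left, hix] at hx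
        simp only [conj_trivial, zero_add] at hx
        rcases mul_eq_zero.1 hx with h | h
        · exact absurd h hδ.ne'
        · exact h
      obtain ⟨c, hc⟩ := perp_unique (a i) b p x (ne i) hb hp0 hib hpe.1 hbp hix hbx
      rw [hc, inner_smul_right] at hkx
      rcases mul_eq_zero.1 hkx with h | h
      · rw [hc, h, zero_smul]
      · exact absurd h (hpj k hk)
    intro j k hjk x hx hjx hkx
    by_cases hj : j = i
    · subst hj; exact hTi k hjk.symm x hx hjx hkx
    · by_cases hk : k = i
      · subst hk; exact hTi j hj x hx hkx hjx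
      · exact hδ2 j k hjk hj hk x (by rw [← hv]; exact hx) hjx hkx
  have hS' : Simple (ext a v) := by
    intro o1 o2 o3 h12 h23 h13 x e1 e2 e3
    rcases o1 with _ | j1
    · rcases o2 with _ | j2
      · exact absurd rfl h12
      · rcases o3 with _ | j3
        · exact absurd rfl h13
        · exact hT j2 j3 (fun h => h23 (by rw [h])) x e1 e2 e3
    · rcases o2 with _ | j2
      · rcases o3 with _ | j3
        · exact absurd rfl h23
        · exact hT j1 j3 (fun h => h13 (by rw [h])) x e2 e1 e3
      · rcases o3 with _ | j3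
        · exact hT j1 j2 (fun h => h12 (by rw [h])) x e3 e1 e2
        · exact hS j1 j2 j3 (fun h => h12 (by rw [h])) (fun h => h23 (by rw [h]))
            (fun h => h13 (by rw [h])) x e1 e2 e3
  -- the next edge
  have hnext : ∃ js, js ≠ i ∧ ∃ c : ℝ, ∀ y, y = (-s0 i) • b + c • p →
      inner ℝ (a js) y = 0 ∧ ∀ k, k ≠ i → k ≠ js → 0 < s0 k * inner ℝ (a k) y := by
    classical
    obtain ⟨f, hf⟩ : ∃ f : ι → ℝ, f = fun j => (s0 i * inner ℝ (a j) b) / inner ℝ (a j) p :=
      ⟨_, rfl⟩
    obtain ⟨js, hjs, hmax⟩ := Finset.exists_max_image (Finset.univ.erase i) f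
      ⟨j0, Finset.mem_erase.2 ⟨hj0, Finset.mem_univ _⟩⟩
    rw [Finset.mem_erase] at hjs
    refine ⟨js, hjs.1, f js, fun y hy => ?_⟩
    have hfk : ∀ k, k ≠ i → f k * inner ℝ (a k) p = s0 i * inner ℝ (a k) b := by
      intro k hk
      rw [hf]
      have := hpj k hk
      field_simp
    have hyk : ∀ k, k ≠ i → inner ℝ (a k) y = (f js - f k) * inner ℝ (a k) p := by
      intro k hk
      rw [hy, inner_add_right, inner_smul_right, inner_smul_right]
      linear_combination hfk k hk
    have hjs0 : inner ℝ (a js) y = 0 := by rw [hyk js hjs.1]; ring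
    refine ⟨hjs0, fun k hk hkj => ?_⟩
    have hy0 : y ≠ 0 := by
      intro h
      have : inner ℝ b y = 0 := by rw [h, inner_zero_right]
      rw [hy, inner_add_right, inner_smul_right, inner_smul_right, hbp] at this
      have h1 : s0 i * inner ℝ b b = 0 := by linarith
      rcases mul_eq_zero.1 h1 with h | h
      · exact hs00 i h
      · exact hbb.ne' h
    have hiy : inner ℝ (a i) y = 0 := by
      rw [hy, inner_add_right, inner_smul_right, inner_smul_right, hib, hpe.1]; ring
    have hne : inner ℝ (a k) y ≠ 0 := fun h =>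
      hy0 (hS i js k hjs.1.symm hkj.symm hk.symm y hiy hjs0 h)
    have hge : 0 ≤ s0 k * inner ℝ (a k) y := by
      rw [hyk k hk]
      have h1 := hpe.2 k hk
      have h2 : 0 ≤ f js - f k :=
        sub_nonneg.2 (hmax k (Finset.mem_erase.2 ⟨hk, Finset.mem_univ _⟩))
      have := mul_nonneg h2 h1.le
      linarith
    exact lt_of_le_of_ne hge (Ne.symm (mul_ne_zero (hs00 k) hne))
  obtain ⟨js, hjs, c, hnext⟩ := hnext
  obtain ⟨y, hy⟩ : ∃ y, y = (-s0 i) • b + c • p := ⟨_, rfl⟩
  obtain ⟨hy0, hyk⟩ := hnext y hy
  have hiy : inner ℝ (a i) y = 0 := by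
    rw [hy, inner_add_right, inner_smul_right, inner_smul_right, hib, hpe.1]; ring
  have hby : inner ℝ b y = - s0 i * inner ℝ b b := by
    rw [hy, inner_add_right, inner_smul_right, inner_smul_right, hbp]; ring
  -- the two strips
  have hy1 : ∃ y1, OnEdge a s0 i y1 ∧ s0 i * inner ℝ b y1 < 0 := by
    have key : ∀ j, 0 < (if j = i then (1:ℝ) else s0 j * inner ℝ (a j) y) ∨
        ((if j = i then (1:ℝ) else s0 j * inner ℝ (a j) y) = 0 ∧
          0 < (if j = i then (0:ℝ) else s0 j * inner ℝ (a j) p)) := by
      intro j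
      by_cases hj : j = i
      · left; simp [hj]
      · rw [if_neg hj, if_neg hj]
        by_cases hjj : j = js
        · subst hjj
          right
          rw [hy0]
          exact ⟨by ring, hpe.2 j hj⟩
        · left; exact hyk j hj hjj
    obtain ⟨τ, _, hτ⟩ := small _ _ key
    refine ⟨y + τ • p, ⟨?_, fun j hj => ?_⟩, ?_⟩
    · rw [inner_add_right, inner_smul_right, hiy, hpe.1]; ring
    · have := hτ j
      rw [if_neg hj, if_neg hj] at this
      rw [inner_add_right, inner_smul_right]
      linarith
    · rw [inner_add_right, inner_smul_right, hbp, hby]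
      have e : s0 i * (-s0 i * inner ℝ b b + τ * 0) = -(s0 i * s0 i) * inner ℝ b b := by ring
      rw [e, hss]; linarith
  have hy2 : ∃ y2, OnEdge a (flip s0 js) i y2 ∧ flip s0 js i * inner ℝ b y2 < 0 := by
    have key : ∀ j, 0 < (if j = i then (1:ℝ) else flip s0 js j * inner ℝ (a j) y) ∨
        ((if j = i then (1:ℝ) else flip s0 js j * inner ℝ (a j) y) = 0 ∧
          0 < (if j = i then (0:ℝ) else flip s0 js j * inner ℝ (a j) (-p))) := by
      intro j
      by_cases hj : j = i
      · left; simp [hj]
      · rw [if_neg hj, if_neg hj]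
        by_cases hjj : j = js
        · subst hjj
          right
          rw [hy0, flip_self, inner_neg_right]
          refine ⟨by ring, ?_⟩
          have := hpe.2 j hj
          linarith
        · left; rw [flip_ne _ hjj]; exact hyk j hj hjj
    obtain ⟨τ, _, hτ⟩ := small _ _ key
    refine ⟨y + τ • (-p), ⟨?_, fun j hj => ?_⟩, ?_⟩
    · rw [inner_add_right, inner_smul_right, inner_neg_right, hiy, hpe.1]; ring
    · have := hτ j
      rw [if_neg hj, if_neg hj] at this
      rw [inner_add_right, inner_smul_right]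
      linarith
    · rw [inner_add_right, inner_smul_right, inner_neg_right, hbp, hby,
        flip_ne _ (Ne.symm hjs)]
      have e : s0 i * (-s0 i * inner ℝ b b + τ * -0) = -(s0 i * s0 i) * inner ℝ b b := by ring
      rw [e, hss]; linarith
  obtain ⟨y1, hy1, hy1b⟩ := hy1
  obtain ⟨y2, hy2, hy2b⟩ := hy2
  have cell1 := strip_cell a i (ne i) b s0 hpm y1 hy1 hy1b δ hδ
  have cell2 := strip_cell a i (ne i) b (flip s0 js) (flip_pm hpm js) y2 hy2 hy2b δ hδ
  rw [← hv] at cell1 cell2
  have hflip : flip (fun o : Option ι => o.elim (-s0 i) s0) (some js) =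
      fun o : Option ι => o.elim (-(flip s0 js i)) (flip s0 js) := by
    funext o
    rcases o with _ | j
    · rw [flip_ne _ (by simp)]
      show -s0 i = -(flip s0 js i)
      rw [flip_ne _ (Ne.symm hjs)]
    · by_cases hj : j = js
      · subst hj
        rw [flip_self]
        show -(s0 j) = flip s0 j j
        rw [flip_self]
      · rw [flip_ne _ (fun e => hj (Option.some_injective _ e))]
        show s0 j = flip s0 js j
        rw [flip_ne _ hj]
  refine ⟨ext a v, ⟨?_, hS', ?_, ?_⟩⟩
  · intro o
    rcases o with _ | j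
    · exact hv0
    · exact ne j
  · intro s hs
    by_cases hne : s none = s (some i)
    · exact big_deg a i j0 hj0 (ne i) p b v hb hp0 hpe.1 hib hbp H s0 hpm hpe h4 h4' h5 s hs hne
    · exact (strip_deg a i (ne i) b v H s hs hne).trans (by norm_num)
  · refine ⟨fun o : Option ι => o.elim (-s0 i) s0, some js, cell1, ?_, ?_, ?_⟩
    · rw [hflip]; exact cell2
    · apply strip_deg a i (ne i) b v H _ cell1
      show -s0 i ≠ s0 i
      intro h
      exact hs00 i (by linarith)
    · rw [hflip]
      apply strip_deg a i (ne i) b v H _ cell2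
      show -(flip s0 js i) ≠ flip s0 js i
      rw [flip_ne _ (Ne.symm hjs)]
      intro h
      exact hs00 i (by linarith)

end comb

/-- A great circle of the unit sphere. -/
def IsGreatCircle (C : Set E) : Prop :=
  ∃ a : E, a ≠ 0 ∧ C = {x | ‖x‖ = 1 ∧ inner ℝ a x = 0}

/-- `C` is a simple arrangement of distinct great circles: no point lies on three of them. -/
structure IsSimpleArrangement {ι : Type} (C : ι → Set E) : Prop where
  great : ∀ i, IsGreatCircle (C i)
  distinct : Function.Injective C
  simple : ∀ i j k, i ≠ j → j ≠ k → i ≠ k → C i ∩ C j ∩ C k = ∅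

/-- the complement of the circles in the unit sphere -/
def Compl {ι : Type} (C : ι → Set E) : Set E := {x | ‖x‖ = 1 ∧ ∀ i, x ∉ C i}

/-- a face: a connected component of the complement of the circles in the sphere -/
def IsFace {ι : Type} (C : ι → Set E) (F : Set E) : Prop :=
  ∃ x ∈ Compl C, F = connectedComponentIn (Compl C) x

/-- the sides of a face `F`: the maximal circular arcs making up its boundary `closure F \ F`, that
is, the connected components with more than one point of (boundary of `F`) ∩ `C i`, for the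
circles `C i` -/
def Sides {ι : Type} (C : ι → Set E) (F : Set E) : Set (Set E) :=
  {A | A.Nontrivial ∧ ∃ i, ∃ x ∈ (closure F \ F) ∩ C i,
    A = connectedComponentIn ((closure F \ F) ∩ C i) x}

/-- the great circle with normal `a` -/
def gc (a : E) : Set E := {x | ‖x‖ = 1 ∧ inner ℝ a x = 0}

theorem cone_preconnected (K : Set E) (hK : Convex ℝ K) (h0 : (0 : E) ∉ K)
    (hc : ∀ x ∈ K, ∀ t : ℝ, 0 < t → t • x ∈ K) : IsPreconnected {x | ‖x‖ = 1 ∧ x ∈ K} := by
  have h1 : IsPreconnected ((fun x : E => ‖x‖⁻¹ • x) '' K) := by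
    apply hK.isPreconnected.image
    intro x hx
    have hx0 : x ≠ 0 := fun h => h0 (h ▸ hx)
    apply ContinuousAt.continuousWithinAt
    have : ‖x‖ ≠ 0 := norm_ne_zero_iff.2 hx0
    fun_prop (disch := assumption)
  have h2 : {x | ‖x‖ = 1 ∧ x ∈ K} = (fun x : E => ‖x‖⁻¹ • x) '' K := by
    ext x
    constructor
    · rintro ⟨hx1, hx⟩
      refine ⟨x, hx, ?_⟩
      simp [hx1]
    · rintro ⟨y, hy, rfl⟩
      have hy0 : y ≠ 0 := fun h => h0 (h ▸ hy)
      have hn : ‖y‖ ≠ 0 := norm_ne_zero_iff.2 hy0
      refine ⟨?_, hc y hy _ (inv_pos.2 (norm_pos_iff.2 hy0))⟩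
      simp only [norm_smul, norm_inv, norm_norm]
      exact inv_mul_cancel₀ hn
  rw [h2]; exact h1

section geo

variable {ι : Type} [Fintype ι] [DecidableEq ι]

theorem face_sides (a : ι → E) (h3 : ∀ i j : ι, ∃ k, k ≠ i ∧ k ≠ j) (hG : Good a)
    (F : Set E) (hF : IsFace (fun i => gc (a i)) F) :
    (Sides (fun i => gc (a i)) F).encard ≤ 5 := by
  classical
  obtain ⟨x0, hx0, hFe⟩ := hF
  obtain ⟨hx0n, hx0C⟩ := hx0
  have hx0a : ∀ j, inner ℝ (a j) x0 ≠ 0 := fun j h => hx0C j ⟨hx0n, h⟩
  obtain ⟨s, hs⟩ : ∃ s : ι → ℝ, s = fun j => if 0 < inner ℝ (a j) x0 then 1 else -1 := ⟨_, rfl⟩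
  have hpm : ∀ j, s j = 1 ∨ s j = -1 := by
    intro j; rw [hs]; dsimp only; split_ifs <;> simp
  have hx0s : ∀ j, 0 < s j * inner ℝ (a j) x0 := by
    intro j; rw [hs]; dsimp only
    split_ifs with h
    · linarith
    · push Not at h
      have := lt_of_le_of_ne h (hx0a j)
      linarith
  have hs0 : ∀ j, s j ≠ 0 := fun j h => by
    rcases hpm j with h' | h' <;> rw [h] at h' <;> norm_num at h'
  have hne : Nonempty ι := by
    obtain ⟨_, i, _⟩ := hG.ex
    exact ⟨i⟩
  obtain ⟨i0⟩ := hne
  -- the face is the cell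
  have hFs : F = {x | ‖x‖ = 1 ∧ ∀ j, 0 < s j * inner ℝ (a j) x} := by
    rw [hFe]
    apply Set.Subset.antisymm
    · intro y hy
      have hpre : IsPreconnected (connectedComponentIn (Compl (fun i => gc (a i))) x0) :=
        isPreconnected_connectedComponentIn
      have hsub : connectedComponentIn (Compl (fun i => gc (a i))) x0 ⊆
          Compl (fun i => gc (a i)) := connectedComponentIn_subset _ _
      have hxm : x0 ∈ connectedComponentIn (Compl (fun i => gc (a i))) x0 :=
        mem_connectedComponentIn ⟨hx0n, hx0C⟩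
      have hyn := (hsub hy).1
      refine ⟨hyn, fun j => ?_⟩
      by_contra hle
      push Not at hle
      have := hpre.intermediate_value hy hxm (f := fun z => s j * inner ℝ (a j) z)
        (by fun_prop)
      obtain ⟨z, hz, hz0⟩ := this ⟨hle, (hx0s j).le⟩
      have hzj : inner ℝ (a j) z = 0 := by
        rcases mul_eq_zero.1 hz0 with h | h
        · exact absurd h (hs0 j)
        · exact h
      exact (hsub hz).2 j ⟨(hsub hz).1, hzj⟩
    · apply IsPreconnected.subset_connectedComponentIn
      · apply cone_preconnected {x | ∀ j, 0 < s j * inner ℝ (a j) x}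
        · intro x hx y hy u v hu hv huv j
          rw [inner_add_right, inner_smul_right, inner_smul_right]
          have h1 := hx j
          have h2 := hy j
          rcases hu.eq_or_lt with h | h
          · have : v = 1 := by linarith
            rw [← h, this]; linarith
          · nlinarith [mul_pos h h1, mul_nonneg hv h2.le]
        · intro h
          have := h i0
          simp at this
        · intro x hx t ht j
          rw [inner_smul_right]
          have := mul_pos ht (hx j)
          linarith
      · exact ⟨hx0n, hx0s⟩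
      · rintro x ⟨hx1, hx2⟩
        refine ⟨hx1, fun i hi => ?_⟩
        have := hx2 i
        rw [hi.2, mul_zero] at this
        exact lt_irrefl _ this
  -- the boundary pieces
  obtain ⟨K, hK⟩ : ∃ K : ι → Set E, K = fun i => {x | ‖x‖ = 1 ∧ x ∈ {x : E | x ≠ 0 ∧
      inner ℝ (a i) x = 0 ∧ ∀ j, 0 ≤ s j * inner ℝ (a j) x}} := ⟨_, rfl⟩
  have hKb : ∀ i, (closure F \ F) ∩ gc (a i) = K i := by
    intro i
    rw [hK]
    apply Set.Subset.antisymm
    · rintro x ⟨⟨hxc, _⟩, hxn, hxi⟩
      refine ⟨hxn, ?_, hxi, ?_⟩
      · intro h; rw [h] at hxn; simp at hxn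
      · have hcl : IsClosed {x : E | ∀ j, 0 ≤ s j * inner ℝ (a j) x} := by
          rw [Set.setOf_forall]
          exact isClosed_iInter fun j => isClosed_le continuous_const (by fun_prop)
        refine closure_minimal ?_ hcl hxc
        rw [hFs]
        exact fun y hy j => (hy.2 j).le
    · rintro x ⟨hxn, hx0, hxi, hxj⟩
      refine ⟨⟨?_, ?_⟩, hxn, hxi⟩
      · have ht : Tendsto (fun τ : ℝ => ‖x + τ • x0‖⁻¹ • (x + τ • x0)) (𝓝[>] 0) (𝓝 x) := by
          have hn : ‖x + (0:ℝ) • x0‖ ≠ 0 := by rw [zero_smul, add_zero, hxn]; norm_num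
          have hc : ContinuousAt (fun τ : ℝ => ‖x + τ • x0‖⁻¹ • (x + τ • x0)) 0 := by
            fun_prop (disch := assumption)
          have h := hc.tendsto
          simp only [zero_smul, add_zero, hxn, inv_one, one_smul] at h
          exact h.mono_left nhdsWithin_le_nhds
        refine mem_closure_of_tendsto ht ?_
        filter_upwards [self_mem_nhdsWithin] with τ hτ
        have hτ : 0 < τ := hτ
        rw [hFs]
        have hpos : ∀ j, 0 < s j * inner ℝ (a j) (x + τ • x0) := by
          intro j
          rw [inner_add_right, inner_smul_right]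
          have h1 := hxj j
          have h2 := mul_pos hτ (hx0s j)
          nlinarith
        have hne : x + τ • x0 ≠ 0 := by
          intro h
          have := hpos i0
          rw [h] at this; simp at this
        have hnp : 0 < ‖x + τ • x0‖ := norm_pos_iff.2 hne
        refine ⟨?_, fun j => ?_⟩
        · rw [norm_smul, norm_inv, norm_norm, inv_mul_cancel₀ hnp.ne']
        · rw [inner_smul_right]
          have := mul_pos (inv_pos.2 hnp) (hpos j)
          nlinarith
      · rw [hFs]
        rintro ⟨_, h⟩
        have := h i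
        rw [hxi, mul_zero] at this
        exact lt_irrefl _ this
  have hKp : ∀ i, IsPreconnected (K i) := by
    intro i
    rw [hK]
    apply cone_preconnected {x : E | x ≠ 0 ∧ inner ℝ (a i) x = 0 ∧ ∀ j, 0 ≤ s j * inner ℝ (a j) x}
    · rintro x ⟨hx0, hxi, hxj⟩ y ⟨hy0, hyi, hyj⟩ u v hu hv huv
      refine ⟨?_, ?_, ?_⟩
      · intro h
        rcases hu.eq_or_lt with h' | h'
        · have hv1 : v = 1 := by linarith
          rw [← h', hv1, zero_smul, one_smul, zero_add] at h
          exact hy0 h
        · have hxall : ∀ j, inner ℝ (a j) x = 0 := by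
            intro j
            have e := congrArg (fun z => s j * inner ℝ (a j) z) h
            simp only [inner_add_right, inner_smul_right, inner_zero_right, mul_zero] at e
            have e1 := mul_nonneg h'.le (hxj j)
            have e2 := mul_nonneg hv (hyj j)
            have e3 : u * (s j * inner ℝ (a j) x) = 0 := by nlinarith
            rcases mul_eq_zero.1 e3 with h | h
            · exact absurd h h'.ne'
            · rcases mul_eq_zero.1 h with h | h
              · exact absurd h (hs0 j)
              · exact h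
          obtain ⟨k, hk, _⟩ := h3 i i
          obtain ⟨l, hl, hl'⟩ := h3 i k
          exact hx0 (hG.simple i k l hk.symm hl'.symm hl.symm x (hxall i) (hxall k) (hxall l))
      · rw [inner_add_right, inner_smul_right, inner_smul_right, hxi, hyi]; ring
      · intro j
        rw [inner_add_right, inner_smul_right, inner_smul_right]
        have e1 := mul_nonneg hu (hxj j)
        have e2 := mul_nonneg hv (hyj j)
        nlinarith
    · exact fun h => h.1 rfl
    · rintro x ⟨hx0, hxi, hxj⟩ t ht
      refine ⟨smul_ne_zero ht.ne' hx0, ?_, fun j => ?_⟩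
      · rw [inner_smul_right, hxi, mul_zero]
      · rw [inner_smul_right]
        have := mul_nonneg ht.le (hxj j)
        linarith
  -- every side is one of the pieces belonging to a wall
  have hsub : Sides (fun i => gc (a i)) F ⊆ K '' (walls a s : Set ι) := by
    rintro A ⟨hA, i, x, hx, hAx⟩
    have hAK : A = K i := by
      have hx' : x ∈ K i := by rw [← hKb i]; exact hx
      have h1 : connectedComponentIn (K i) x = K i := by
        apply Set.Subset.antisymm (connectedComponentIn_subset _ _)
        exact (hKp i).subset_connectedComponentIn hx' subset_rfl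
      rw [hAx]
      show connectedComponentIn ((closure F \ F) ∩ gc (a i)) x = K i
      rw [hKb i, h1]
    refine ⟨i, ?_, hAK.symm⟩
    rw [hAK, hK] at hA
    obtain ⟨u, ⟨hun, hu0, hui, huj⟩, v, ⟨hvn, hv0, hvi, hvj⟩, huv⟩ := hA
    have hedge : OnEdge a s i (u + v) := by
      refine ⟨by rw [inner_add_right, hui, hvi, add_zero], fun j hj => ?_⟩
      rw [inner_add_right]
      by_contra hle
      push Not at hle
      have e1 := huj j
      have e2 := hvj j
      have f1 : s j * inner ℝ (a j) u = 0 := by nlinarith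
      have f2 : s j * inner ℝ (a j) v = 0 := by nlinarith
      have g1 : inner ℝ (a j) u = 0 := (mul_eq_zero.1 f1).resolve_left (hs0 j)
      have g2 : inner ℝ (a j) v = 0 := (mul_eq_zero.1 f2).resolve_left (hs0 j)
      obtain ⟨k, hki, hkj⟩ := h3 i j
      have hku : inner ℝ (a k) u ≠ 0 := fun h =>
        hu0 (hG.simple i j k hj.symm hkj.symm hki.symm u hui g1 h)
      obtain ⟨c, hc⟩ : ∃ c, c = inner ℝ (a k) v / inner ℝ (a k) u := ⟨_, rfl⟩
      have hvc : v = c • u := by
        have : v - c • u = 0 := by
          apply hG.simple i j k hj.symm hkj.symm hki.symm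
          · rw [inner_sub_right, inner_smul_right, hvi, hui]; ring
          · rw [inner_sub_right, inner_smul_right, g2, g1]; ring
          · rw [inner_sub_right, inner_smul_right, hc]; field_simp; ring
        exact sub_eq_zero.1 this
      have hcn : |c| = 1 := by
        have := hvn
        rw [hvc, norm_smul, hun, mul_one] at this
        exact this
      have hcpos : 0 ≤ c := by
        have h1 := huj k
        have h2 := hvj k
        rw [hvc, inner_smul_right] at h2
        have h3' : 0 < s k * inner ℝ (a k) u :=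
          lt_of_le_of_ne h1 (Ne.symm (mul_ne_zero (hs0 k) hku))
        by_contra hneg
        push Not at hneg
        nlinarith [mul_pos (neg_pos.2 hneg) h3']
      rw [abs_of_nonneg hcpos] at hcn
      rw [hcn, one_smul] at hvc
      exact huv hvc.symm
    show i ∈ (walls a s : Set ι)
    rw [Finset.mem_coe, walls, Finset.mem_filter]
    exact ⟨Finset.mem_univ _, edge_cell a _ i (flip_pm hpm i) (hG.ne i) _
      ((onEdge_flip a _ i _).2 hedge)⟩
  have hcard := hG.deg5 s ⟨hpm, x0, hx0s⟩
  calc (Sides (fun i => gc (a i)) F).encard ≤ (K '' (walls a s : Set ι)).encard :=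
        Set.encard_le_encard hsub
    _ ≤ (walls a s : Set ι).encard := Set.encard_image_le _ _
    _ = ((walls a s).card : ℕ∞) := Set.encard_coe_eq_coe_finsetCard _
    _ ≤ 5 := by exact_mod_cast hcard

theorem arrangement (a : ι → E) (h3 : ∀ i j : ι, ∃ k, k ≠ i ∧ k ≠ j) (hG : Good a) :
    IsSimpleArrangement (fun i => gc (a i)) := by
  refine ⟨fun i => ⟨a i, hG.ne i, rfl⟩, ?_, ?_⟩
  · intro i j hij
    by_contra hne
    obtain ⟨k, hki, hkj⟩ := h3 i j
    obtain ⟨b, hb, hib, hkb⟩ := exists_perp (a i) (a k)
    have hnb : ‖b‖ ≠ 0 := norm_ne_zero_iff.2 hb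
    have h1 : ‖b‖⁻¹ • b ∈ gc (a i) := by
      refine ⟨?_, ?_⟩
      · rw [norm_smul, norm_inv, norm_norm, inv_mul_cancel₀ hnb]
      · rw [inner_smul_right, hib, mul_zero]
    have hij' : gc (a i) = gc (a j) := hij
    rw [hij'] at h1
    have h2 := h1.2
    rw [inner_smul_right] at h2
    have h4 : inner ℝ (a j) b = 0 := (mul_eq_zero.1 h2).resolve_left (inv_ne_zero hnb)
    exact hb (hG.simple i j k hne hkj.symm hki.symm b hib h4 hkb)
  · intro i j k hij hjk hik
    rw [Set.eq_empty_iff_forall_notMem]
    rintro x ⟨⟨h1, h2⟩, h3'⟩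
    have := hG.simple i j k hij hjk hik x h1.2 h2.2 h3'.2
    have hn := h1.1
    rw [this] at hn
    simp at hn

end geo

/-- the three coordinate planes -/
theorem good_base : Good (fun i : Fin 3 => (EuclideanSpace.single i (1:ℝ) : E)) := by
  have hin : ∀ (i : Fin 3) (x : E), inner ℝ (EuclideanSpace.single i (1:ℝ) : E) x = x i := by
    intro i x
    rw [EuclideanSpace.inner_single_left]
    simp
  refine ⟨?_, ?_, ?_, ?_⟩
  · intro i h
    have := congrFun (congrArg (fun v : E => (v : Fin 3 → ℝ)) h) i
    simp at this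
  · intro i j k hij hjk hik x h1 h2 h3
    rw [hin] at h1 h2 h3
    have : ∀ m, x m = 0 := by
      intro m
      have hm : m = i ∨ m = j ∨ m = k := by
        clear h1 h2 h3
        revert m i j k
        decide
      rcases hm with h | h | h <;> rw [h] <;> assumption
    ext m
    simpa using this m
  · intro s _
    calc (walls _ s).card ≤ (Finset.univ : Finset (Fin 3)).card := Finset.card_le_univ _
      _ ≤ 5 := by simp
  · refine ⟨fun _ => 1, 0, ⟨fun _ => Or.inl rfl, WithLp.toLp 2 ![1, 1, 1], ?_⟩,
      ⟨flip_pm (fun _ => Or.inl rfl) 0, WithLp.toLp 2 ![-1, 1, 1], ?_⟩, ?_, ?_⟩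
    · intro j
      rw [hin]
      fin_cases j <;> simp
    · intro j
      rw [hin]
      fin_cases j <;> simp [flip, Function.update]
    · calc (walls _ _).card ≤ (Finset.univ : Finset (Fin 3)).card := Finset.card_le_univ _
        _ ≤ 4 := by simp
    · calc (walls _ _).card ≤ (Finset.univ : Finset (Fin 3)).card := Finset.card_le_univ _
        _ ≤ 4 := by simp

theorem exists_third {ι : Type} [Fintype ι] [DecidableEq ι] (h : 3 ≤ Fintype.card ι) (i j : ι) :
    ∃ k, k ≠ i ∧ k ≠ j := by
  by_contra hcon
  push Not at hcon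
  have : (Finset.univ : Finset ι) ⊆ {i, j} := by
    intro k _
    by_cases hk : k = i
    · simp [hk]
    · simp [hcon k hk]
  have h1 := Finset.card_le_card this
  have h2 : ({i, j} : Finset ι).card ≤ 2 := Finset.card_le_two
  rw [Finset.card_univ] at h1
  omega

theorem good_exists (n : ℕ) (hn : 3 ≤ n) : ∃ (ι : Type) (_ : Fintype ι) (_ : DecidableEq ι),
    Fintype.card ι = n ∧ ∃ a : ι → E, Good a := by
  induction n, hn using Nat.le_induction with
  | base => exact ⟨Fin 3, inferInstance, inferInstance, by simp, _, good_base⟩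
  | succ n hn ih =>
    obtain ⟨ι, _, _, hc, a, ha⟩ := ih
    have h2 : ∀ i : ι, ∃ j, j ≠ i := by
      intro i
      obtain ⟨k, hk, _⟩ := exists_third (by omega) i i
      exact ⟨k, hk⟩
    obtain ⟨a', ha'⟩ := step a h2 ha
    exact ⟨Option ι, inferInstance, inferInstance, by simp [hc], a', ha'⟩

/-- For every `n ≥ 3` there is a simple arrangement of `n` great circles all of whose faces have at
most five sides. -/
theorem result (n : ℕ) (hn : 3 ≤ n) : ∃ C : Fin n → Set E, IsSimpleArrangement C ∧
    ∀ F, IsFace C F → (Sides C F).encard ≤ 5 := by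
  obtain ⟨ι, _, _, hc, a, ha⟩ := good_exists n hn
  obtain ⟨e⟩ : Nonempty (Fin n ≃ ι) := ⟨(Fintype.equivFinOfCardEq hc).symm⟩
  have h3 : ∀ i j : ι, ∃ k, k ≠ i ∧ k ≠ j := exists_third (by omega)
  have harr := arrangement a h3 ha
  refine ⟨fun i => gc (a (e i)), ⟨fun i => harr.great (e i), ?_, ?_⟩, ?_⟩
  · intro i j hij
    exact e.injective (harr.distinct hij)
  · intro i j k hij hjk hik
    exact harr.simple (e i) (e j) (e k) (fun h => hij (e.injective h))
      (fun h => hjk (e.injective h)) (fun h => hik (e.injective h))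
  · intro F hF
    have hC : Compl (fun i => gc (a (e i))) = Compl (fun i => gc (a i)) := by
      ext x
      constructor
      · rintro ⟨h1, h2⟩
        refine ⟨h1, fun i => ?_⟩
        have := h2 (e.symm i)
        simpa using this
      · rintro ⟨h1, h2⟩
        exact ⟨h1, fun i => h2 (e i)⟩
    have hF' : IsFace (fun i => gc (a i)) F := by
      obtain ⟨x, hx, hFx⟩ := hF
      rw [hC] at hx hFx
      exact ⟨x, hx, hFx⟩
    have hSides : Sides (fun i => gc (a (e i))) F ⊆ Sides (fun i => gc (a i)) F := by
      rintro A ⟨hA, i, x, hx, hAx⟩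
      exact ⟨hA, e i, x, hx, hAx⟩
    exact (Set.encard_le_encard hSides).trans (face_sides a h3 ha F hF')

end Pool.Agent.Results.MP_2b14c6_co.GreatCirclesFive
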